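import Pool.Agent.H12.EV.Model

/-!
# [H75 EV Barrier] the barrier in the model of H12/EV (for MP_4d3999, helper12)

`F_le_pow`: the upper bound `C * L ^ (-θ)`. `barrier`: convergence of `F r L 1 * L ^ θ` from the convergence without barrier.
`dip`: continuity in the barrier from below, uniformly in `L`.
-/

set_option autoImplicit false

namespace Pool.H75.EV

open Pool.Agent.H12.EV Filter

/-! ### the operator -/

lemma Op_le {f g : ℕ → ℝ → ℝ → ℝ} {r : ℕ} {L R : ℝ}
    (h2 : ∀ s, s < 6 → f s (2 * L) (2 * R) ≤ g s (2 * L) (2 * R))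
    (h3 : ∀ s, s < 6 → f s (3 * L) (3 * R) ≤ g s (3 * L) (3 * R))
    (h5 : ∀ s, s < 6 → f s (L / 5) (R / 5) ≤ g s (L / 5) (R / 5)) : Op f r L R ≤ Op g r L R := by
  unfold Op
  split_ifs
  · linarith [h2 0 (by norm_num), h2 3 (by norm_num)]
  · exact h5 _ (by norm_num)
  · linarith [h2 1 (by norm_num), h2 4 (by norm_num)]
  · linarith [h3 1 (by norm_num), h3 3 (by norm_num), h3 5 (by norm_num)]
  · linarith [h2 2 (by norm_num), h2 5 (by norm_num)]
  · exact h5 _ (by norm_num)

lemma Op_add (f g : ℕ → ℝ → ℝ → ℝ) (r : ℕ) (L R : ℝ) :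
    Op (fun s L R => f s L R + g s L R) r L R = Op f r L R + Op g r L R := by
  unfold Op
  split_ifs <;> ring

lemma Op_mul (c : ℝ) (f : ℕ → ℝ → ℝ → ℝ) (r : ℕ) (L R : ℝ) :
    Op (fun s L R => c * f s L R) r L R = c * Op f r L R := by
  unfold Op
  split_ifs <;> ring

/-- a function of the quotient is a constant -/
lemma Op_quot (q : ℝ → ℝ) (r : ℕ) (L R : ℝ) : Op (fun _ L R => q (R / L)) r L R = q (R / L) := by
  have e2 : 2 * R / (2 * L) = R / L := mul_div_mul_left _ _ two_ne_zero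
  have e3 : 3 * R / (3 * L) = R / L := mul_div_mul_left _ _ (by norm_num)
  have e5 : R / 5 / (L / 5) = R / L := div_div_div_cancel_right₀ (by norm_num) _ _
  unfold Op
  beta_reduce
  rw [e2, e3, e5]
  split_ifs <;> ring

lemma Op_quot_mul (q : ℝ → ℝ) (u : ℕ → ℝ) (r : ℕ) (L R : ℝ) :
    Op (fun s L R => q (R / L) * (u s / L)) r L R = q (R / L) * Op (fun s L _ => u s / L) r L R := by
  have e2 : 2 * R / (2 * L) = R / L := mul_div_mul_left _ _ two_ne_zero
  have e3 : 3 * R / (3 * L) = R / L := mul_div_mul_left _ _ (by norm_num)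
  have e5 : R / 5 / (L / 5) = R / L := div_div_div_cancel_right₀ (by norm_num) _ _
  unfold Op
  beta_reduce
  rw [e2, e3, e5]
  split_ifs <;> ring

/-! ### the upper bound -/

lemma F_le_v {θ : ℝ} {v : ℕ → ℝ} (h : Par θ v) : ∃ C : ℝ, 0 < C ∧ ∀ (r : ℕ) (L R : ℝ), r < 6 → 0 < L →
    F r L R ≤ C * (v r * L ^ (-θ)) := by
  obtain ⟨C, hC⟩ : ∃ C : ℝ, C = ∑ r ∈ Finset.range 6, (v r)⁻¹ := ⟨_, rfl⟩
  have hCv : ∀ r, r < 6 → 1 ≤ C * v r := by
    intro r hr
    have h1 : (v r)⁻¹ ≤ C := by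
      rw [hC]
      exact Finset.single_le_sum (f := fun r => (v r)⁻¹)
        (fun s hs => inv_nonneg.2 (h.vpos s (Finset.mem_range.1 hs)).le) (Finset.mem_range.2 hr)
    calc (1 : ℝ) = (v r)⁻¹ * v r := (inv_mul_cancel₀ (h.vpos r hr).ne').symm
      _ ≤ C * v r := mul_le_mul_of_nonneg_right h1 (h.vpos r hr).le
  have hC0 : 0 < C := by
    have h1 := hCv 0 (by norm_num)
    by_contra hcon
    push Not at hcon
    have := mul_nonpos_of_nonpos_of_nonneg hcon (h.vpos 0 (by norm_num)).le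
    linarith
  have hθ0 : 0 < θ := by linarith [h.hθ1]
  refine ⟨C, hC0, fun r L R hr hL => F_le_of fun i => ?_⟩
  induction i generalizing r L R with
  | zero =>
    by_cases hL1 : L ≤ 1
    · have e1 : 1 ≤ L ^ (-θ) := Real.one_le_rpow_of_pos_of_le_one_of_nonpos hL hL1 (by linarith)
      have e2 := hCv r hr
      calc Phi 0 r L R ≤ 1 := Phi_le_one _ _ _ _
        _ ≤ (C * v r) * L ^ (-θ) := by nlinarith
        _ = C * (v r * L ^ (-θ)) := by ring
    · have e1 : Phi 0 r L R = 0 := by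
        unfold Phi
        rw [if_neg hL1]
        split_ifs <;> rfl
      rw [e1]
      have := h.vpos r hr
      have := Real.rpow_pos_of_pos hL (-θ)
      positivity
  | succ i ih =>
    by_cases hL1 : L ≤ 1
    · have e1 : 1 ≤ L ^ (-θ) := Real.one_le_rpow_of_pos_of_le_one_of_nonpos hL hL1 (by linarith)
      have e2 := hCv r hr
      calc Phi (i + 1) r L R ≤ 1 := Phi_le_one _ _ _ _
        _ ≤ (C * v r) * L ^ (-θ) := by nlinarith
        _ = C * (v r * L ^ (-θ)) := by ring
    · have e0 : Phi (i + 1) r L R = if 1 < R then 0 else if L ≤ 1 then 1 else Op (Phi i) r L R := rfl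
      rw [e0, if_neg hL1]
      split_ifs
      · have := h.vpos r hr
        have := Real.rpow_pos_of_pos hL (-θ)
        positivity
      · have e1 : Op (Phi i) r L R ≤ Op (fun s L _ => C * (v s * L ^ (-θ))) r L R :=
          Op_le (fun s hs => ih s _ _ hs (by linarith)) (fun s hs => ih s _ _ hs (by linarith))
            (fun s hs => ih s _ _ hs (by linarith))
        have e2 := Op_mul C (fun s L _ => v s * L ^ (-θ)) r L R
        rw [e2, Op_v h hr hL] at e1
        exact e1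

theorem F_le_pow {θ : ℝ} {v : ℕ → ℝ} (h : Par θ v) : ∃ C : ℝ, 0 < C ∧ ∀ (r : ℕ) (L R : ℝ), r < 6 →
    0 < L → F r L R ≤ C * L ^ (-θ) := by
  obtain ⟨C, hC, hF⟩ := F_le_v h
  have hv : ∀ r, r < 6 → v r ≤ ∑ r ∈ Finset.range 6, v r := fun r hr =>
    Finset.single_le_sum (f := v) (fun s hs => (h.vpos s (Finset.mem_range.1 hs)).le)
      (Finset.mem_range.2 hr)
  have hv0 : 0 < ∑ r ∈ Finset.range 6, v r := (h.vpos 0 (by norm_num)).trans_le (hv 0 (by norm_num))
  refine ⟨C * ∑ r ∈ Finset.range 6, v r, by positivity, fun r L R hr hL => (hF r L R hr hL).trans ?_⟩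
  have e1 := Real.rpow_pos_of_pos hL (-θ)
  have e2 := mul_le_mul_of_nonneg_right (hv r hr) e1.le
  calc C * (v r * L ^ (-θ)) ≤ C * ((∑ r ∈ Finset.range 6, v r) * L ^ (-θ)) :=
        mul_le_mul_of_nonneg_left e2 hC.le
    _ = C * (∑ r ∈ Finset.range 6, v r) * L ^ (-θ) := by ring

/-! ### the effect of the barrier -/

lemma base {θ : ℝ} {v : ℕ → ℝ} (h : Par θ v) : ∃ C : ℝ, 0 < C ∧ ∀ (r : ℕ) (L R : ℝ), r < 6 → 0 < L →
    0 < R → F r L 0 ≤ F r L R + C * (R / L) ^ θ := by
  obtain ⟨C, hC, hF⟩ := F_le_pow h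
  have hθ0 : 0 < θ := by linarith [h.hθ1]
  refine ⟨C, hC, fun r L R hr hL hR => F_le_of fun i => ?_⟩
  -- above the barrier
  have habove : ∀ (i r : ℕ) (L R : ℝ), r < 6 → 0 < L → 1 < R → Phi i r L 0 ≤ F r L R + C * (R / L) ^ θ := by
    intro i r L R hr hL hR
    have e1 := (Phi_le_F i r L 0).trans (hF r L 0 hr hL)
    have e2 := F_nonneg r L R
    have e3 : (R / L) ^ θ = R ^ θ * L ^ (-θ) := by
      rw [Real.div_rpow (by linarith) hL.le, Real.rpow_neg hL.le, div_eq_mul_inv]
    have e4 : 1 ≤ R ^ θ := Real.one_le_rpow hR.le hθ0.le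
    have e5 := Real.rpow_pos_of_pos hL (-θ)
    rw [e3]
    have e6 : C * L ^ (-θ) ≤ C * (R ^ θ * L ^ (-θ)) :=
      mul_le_mul_of_nonneg_left (le_mul_of_one_le_left e5.le e4) hC.le
    linarith
  induction i generalizing r L R with
  | zero =>
    by_cases hR1 : 1 < R
    · exact habove 0 r L R hr hL hR1
    have e3 : 0 ≤ (R / L) ^ θ := Real.rpow_nonneg (by positivity) _
    have e4 : 0 ≤ C * (R / L) ^ θ := by positivity
    by_cases hL1 : L ≤ 1
    · rw [F_one hL1 (not_lt.1 hR1)]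
      have := Phi_le_one 0 r L 0
      linarith
    · have e1 : Phi 0 r L 0 = 0 := by
        unfold Phi
        rw [if_neg hL1]
        split_ifs <;> rfl
      rw [e1]
      have := F_nonneg r L R
      linarith
  | succ i ih =>
    by_cases hR1 : 1 < R
    · exact habove (i + 1) r L R hr hL hR1
    have e3 : 0 ≤ (R / L) ^ θ := Real.rpow_nonneg (by positivity) _
    have e4 : 0 ≤ C * (R / L) ^ θ := by positivity
    by_cases hL1 : L ≤ 1
    · rw [F_one hL1 (not_lt.1 hR1)]
      have := Phi_le_one (i + 1) r L 0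
      linarith
    · have e0 : Phi (i + 1) r L 0 = if (1 : ℝ) < 0 then 0 else if L ≤ 1 then 1 else Op (Phi i) r L 0 := rfl
      rw [e0, if_neg (by norm_num), if_neg hL1, F_step (not_le.1 hL1) (not_lt.1 hR1)]
      have e5 : Op (Phi i) r L 0 = Op (fun s L _ => Phi i s L 0) r L R := by
        unfold Op
        simp only [mul_zero, zero_div]
      have e6 : Op (fun s L _ => Phi i s L 0) r L R ≤
          Op (fun s L R => F s L R + C * (R / L) ^ θ) r L R :=
        Op_le (fun s hs => ih s _ _ hs (by linarith) (by linarith))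
          (fun s hs => ih s _ _ hs (by linarith) (by linarith))
          (fun s hs => ih s _ _ hs (by linarith) (by linarith))
      have e7 := Op_add F (fun _ L R => C * (R / L) ^ θ) r L R
      have e8 := Op_quot (fun q => C * q ^ θ) r L R
      beta_reduce at e8
      rw [e5]
      rw [e7, e8] at e6
      exact e6

/-- the error term -/
noncomputable def bb (θ A : ℝ) (s : ℕ) (L R : ℝ) : ℝ := A * (R / L) ^ (θ - 1) * (w s / L)

lemma bb_nonneg {θ A : ℝ} (hA : 0 ≤ A) (s : ℕ) {L R : ℝ} (hL : 0 < L) (hR : 0 ≤ R) :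
    0 ≤ bb θ A s L R := by
  unfold bb
  have := w_pos s
  have := Real.rpow_nonneg (div_nonneg hR hL.le) (θ - 1)
  positivity

lemma Op_bb {θ A : ℝ} (hA : 0 ≤ A) {r : ℕ} (hr : r < 6) {L R : ℝ} (hL : 0 < L) (hR : 0 ≤ R) :
    Op (bb θ A) r L R ≤ bb θ (A * (19 / 20)) r L R := by
  have e1 : Op (bb θ A) r L R = A * (R / L) ^ (θ - 1) * Op (fun s L _ => w s / L) r L R := by
    have := Op_quot_mul (fun q => A * q ^ (θ - 1)) w r L R
    beta_reduce at this
    exact this
  rw [e1]
  have e2 := Op_w hr (R := R) hL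
  have e3 := Real.rpow_nonneg (div_nonneg hR hL.le) (θ - 1)
  have e4 := mul_le_mul_of_nonneg_left e2 (mul_nonneg hA e3)
  refine e4.trans (le_of_eq ?_)
  unfold bb
  ring

lemma base_bb {θ : ℝ} {v : ℕ → ℝ} (h : Par θ v) : ∃ A : ℝ, 0 < A ∧ ∀ (r : ℕ) (L R : ℝ), r < 6 → 0 < L →
    0 < R → R ≤ 1 → F r L 0 ≤ F r L R + bb θ A r L R := by
  obtain ⟨C, hC, hF⟩ := base h
  refine ⟨C * (10000 / 687), by positivity, fun r L R hr hL hR hR1 => (hF r L R hr hL hR).trans ?_⟩
  have hq : 0 < R / L := div_pos hR hL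
  have e1 : (R / L) ^ θ = (R / L) ^ (θ - 1) * (R / L) := by
    rw [Real.rpow_sub_one hq.ne']
    field_simp
  have e2 := Real.rpow_pos_of_pos hq (θ - 1)
  have e3 := w_ge r
  unfold bb
  rw [e1]
  have e4 : R / L ≤ 10000 / 687 * (w r / L) := by
    rw [← mul_div_assoc]
    exact div_le_div_of_nonneg_right (by linarith) hL.le
  have e5 : C * ((R / L) ^ (θ - 1) * (R / L)) ≤
      C * ((R / L) ^ (θ - 1) * (10000 / 687 * (w r / L))) := by gcongr
  have e6 : C * ((R / L) ^ (θ - 1) * (10000 / 687 * (w r / L))) =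
      C * (10000 / 687) * (R / L) ^ (θ - 1) * (w r / L) := by ring
  linarith

/-! ### approximation from above -/

/-- the barrier is only observed in the first `i` steps -/
noncomputable def DD : ℕ → ℕ → ℝ → ℝ → ℝ
  | 0, r, L, R => if 1 < R then 0 else F r L 0
  | i + 1, r, L, R => if 1 < R then 0 else if L ≤ 1 then 1 else Op (DD i) r L R

lemma DD_zero (r : ℕ) (L R : ℝ) : DD 0 r L R = if 1 < R then 0 else F r L 0 := rfl

lemma DD_succ (i r : ℕ) (L R : ℝ) :
    DD (i + 1) r L R = if 1 < R then 0 else if L ≤ 1 then 1 else Op (DD i) r L R := rfl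

lemma F_le_DD (i r : ℕ) (L R : ℝ) (hR : 0 ≤ R) : F r L R ≤ DD i r L R := by
  induction i generalizing r L R with
  | zero =>
    rw [DD_zero]
    split_ifs with h1
    · exact (F_zero h1).le
    · exact F_anti r le_rfl hR
  | succ i ih =>
    rw [DD_succ]
    split_ifs with h1 h2
    · exact (F_zero h1).le
    · exact F_le_one _ _ _
    · rw [F_step (not_le.1 h2) (not_lt.1 h1)]
      exact Op_le (fun s _ => ih s _ _ (by linarith)) (fun s _ => ih s _ _ (by linarith))
        (fun s _ => ih s _ _ (by linarith))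

lemma DD_le {θ : ℝ} {A : ℝ} (hA : 0 < A)
    (hb : ∀ (r : ℕ) (L R : ℝ), r < 6 → 0 < L → 0 < R → R ≤ 1 → F r L 0 ≤ F r L R + bb θ A r L R)
    (i r : ℕ) (L R : ℝ) (hr : r < 6) (hL : 0 < L) (hR : 0 < R) :
    DD i r L R ≤ F r L R + bb θ (A * (19 / 20) ^ i) r L R := by
  induction i generalizing r L R with
  | zero =>
    rw [DD_zero, pow_zero, mul_one]
    have e0 := bb_nonneg (θ := θ) hA.le r hL hR.le
    split_ifs with h1
    · have := F_nonneg r L R
      linarith
    · exact hb r L R hr hL hR (not_lt.1 h1)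
  | succ i ih =>
    rw [DD_succ]
    have e0 := bb_nonneg (θ := θ) (A := A * (19 / 20) ^ (i + 1)) (by positivity) r hL hR.le
    split_ifs with h1 h2
    · have := F_nonneg r L R
      linarith
    · rw [F_one h2 (not_lt.1 h1)]
      linarith
    · rw [F_step (not_le.1 h2) (not_lt.1 h1)]
      have e1 : Op (DD i) r L R ≤ Op (fun s L R => F s L R + bb θ (A * (19 / 20) ^ i) s L R) r L R :=
        Op_le (fun s hs => ih s _ _ hs (by linarith) (by linarith))
          (fun s hs => ih s _ _ hs (by linarith) (by linarith))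
          (fun s hs => ih s _ _ hs (by linarith) (by linarith))
      rw [Op_add] at e1
      have e2 := Op_bb (θ := θ) (A := A * (19 / 20) ^ i) (by positivity) hr hL hR.le
      rw [pow_succ, ← mul_assoc]
      linarith

lemma scale {f : ℝ → ℝ} {k θ a : ℝ} (hk : 0 < k)
    (hf : Tendsto (fun L : ℝ => f L * L ^ θ) atTop (nhds a)) :
    Tendsto (fun L : ℝ => f (k * L) * L ^ θ) atTop (nhds (a * k ^ (-θ))) := by
  have h1 : Tendsto (fun L : ℝ => k * L) atTop atTop := Tendsto.const_mul_atTop hk tendsto_id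
  have h2 := (hf.comp h1).mul_const (k ^ (-θ))
  refine h2.congr' ?_
  filter_upwards [eventually_ge_atTop 0] with L hL
  show f (k * L) * (k * L) ^ θ * k ^ (-θ) = f (k * L) * L ^ θ
  rw [Real.mul_rpow hk.le hL, Real.rpow_neg hk.le]
  have : k ^ θ ≠ 0 := (Real.rpow_pos_of_pos hk θ).ne'
  field_simp

lemma DD_conv {θ : ℝ} {v : ℕ → ℝ} {c : ℝ}
    (hc : ∀ r : ℕ, r < 6 → Tendsto (fun L : ℝ => F r L 0 * L ^ θ) atTop (nhds (c * v r)))
    (i r : ℕ) (R : ℝ) (hr : r < 6) :
    ∃ a : ℝ, Tendsto (fun L : ℝ => DD i r L R * L ^ θ) atTop (nhds a) := by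
  induction i generalizing r R with
  | zero =>
    by_cases h1 : 1 < R
    · refine ⟨0, ?_⟩
      simp only [DD_zero, if_pos h1, zero_mul]
      exact tendsto_const_nhds
    · refine ⟨c * v r, ?_⟩
      simp only [DD_zero, if_neg h1]
      exact hc r hr
  | succ i ih =>
    by_cases h1 : 1 < R
    · refine ⟨0, ?_⟩
      simp only [DD_succ, if_pos h1, zero_mul]
      exact tendsto_const_nhds
    · have t2 : ∀ s, s < 6 → ∃ a : ℝ,
          Tendsto (fun L : ℝ => DD i s (2 * L) (2 * R) * L ^ θ) atTop (nhds a) := by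
        intro s hs
        obtain ⟨a, ha⟩ := ih s (2 * R) hs
        exact ⟨_, scale (f := fun L => DD i s L (2 * R)) two_pos ha⟩
      have t3 : ∀ s, s < 6 → ∃ a : ℝ,
          Tendsto (fun L : ℝ => DD i s (3 * L) (3 * R) * L ^ θ) atTop (nhds a) := by
        intro s hs
        obtain ⟨a, ha⟩ := ih s (3 * R) hs
        exact ⟨_, scale (f := fun L => DD i s L (3 * R)) three_pos ha⟩
      have t5 : ∀ s, s < 6 → ∃ a : ℝ,
          Tendsto (fun L : ℝ => DD i s (L / 5) (R / 5) * L ^ θ) atTop (nhds a) := by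
        intro s hs
        obtain ⟨a, ha⟩ := ih s (R / 5) hs
        have := scale (f := fun L => DD i s L (R / 5)) (k := 5⁻¹) (by norm_num) ha
        refine ⟨_, this.congr fun L => ?_⟩
        show DD i s (5⁻¹ * L) (R / 5) * L ^ θ = DD i s (L / 5) (R / 5) * L ^ θ
        rw [mul_comm (5⁻¹ : ℝ) L, ← div_eq_mul_inv]
      have hop : ∃ a : ℝ, Tendsto (fun L : ℝ => Op (DD i) r L R * L ^ θ) atTop (nhds a) := by
        interval_cases r
        · obtain ⟨a, ha⟩ := t2 0 (by norm_num)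
          obtain ⟨b, hb⟩ := t2 3 (by norm_num)
          refine ⟨_, ((ha.add hb).div_const 2).congr fun L => ?_⟩
          unfold Op
          rw [if_pos rfl]
          ring
        · obtain ⟨a, ha⟩ := t5 0 (by norm_num)
          refine ⟨_, ha.congr fun L => ?_⟩
          unfold Op
          rw [if_neg (by norm_num), if_pos rfl]
        · obtain ⟨a, ha⟩ := t2 1 (by norm_num)
          obtain ⟨b, hb⟩ := t2 4 (by norm_num)
          refine ⟨_, ((ha.add hb).div_const 2).congr fun L => ?_⟩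
          unfold Op
          rw [if_neg (by norm_num), if_neg (by norm_num), if_pos rfl]
          ring
        · obtain ⟨a, ha⟩ := t3 1 (by norm_num)
          obtain ⟨b, hb⟩ := t3 3 (by norm_num)
          obtain ⟨c', hc'⟩ := t3 5 (by norm_num)
          refine ⟨_, (((ha.add hb).add hc').div_const 3).congr fun L => ?_⟩
          unfold Op
          rw [if_neg (by norm_num), if_neg (by norm_num), if_neg (by norm_num), if_pos rfl]
          ring
        · obtain ⟨a, ha⟩ := t2 2 (by norm_num)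
          obtain ⟨b, hb⟩ := t2 5 (by norm_num)
          refine ⟨_, ((ha.add hb).div_const 2).congr fun L => ?_⟩
          unfold Op
          rw [if_neg (by norm_num), if_neg (by norm_num), if_neg (by norm_num),
            if_neg (by norm_num), if_pos rfl]
          ring
        · obtain ⟨a, ha⟩ := t5 2 (by norm_num)
          refine ⟨_, ha.congr fun L => ?_⟩
          unfold Op
          rw [if_neg (by norm_num), if_neg (by norm_num), if_neg (by norm_num),
            if_neg (by norm_num), if_neg (by norm_num)]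
      obtain ⟨a, ha⟩ := hop
      refine ⟨a, ha.congr' ?_⟩
      filter_upwards [eventually_gt_atTop 1] with L hL
      rw [DD_succ, if_neg h1, if_neg (not_le.2 hL)]

lemma bb_one {θ A : ℝ} (hA : 0 ≤ A) (r : ℕ) {L : ℝ} (hL : 0 < L) : bb θ A r L 1 * L ^ θ ≤ A := by
  unfold bb
  have e1 : (1 / L) ^ (θ - 1) * (1 / L) * L ^ θ = 1 := by
    have hq : 0 < 1 / L := by positivity
    rw [Real.rpow_sub_one hq.ne']
    have e2 : (1 / L) ^ θ / (1 / L) * (1 / L) = (1 / L) ^ θ := div_mul_cancel₀ _ hq.ne'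
    rw [e2, ← Real.mul_rpow hq.le hL.le, one_div, inv_mul_cancel₀ hL.ne', Real.one_rpow]
  have e2 : A * (1 / L) ^ (θ - 1) * (w r / L) * L ^ θ =
      A * w r * ((1 / L) ^ (θ - 1) * (1 / L) * L ^ θ) := by ring
  rw [e2, e1, mul_one]
  exact mul_le_of_le_one_right hA (w_le_one r)

theorem barrier {θ : ℝ} {v : ℕ → ℝ} (h : Par θ v) {c : ℝ}
    (hc : ∀ r : ℕ, r < 6 → Tendsto (fun L : ℝ => F r L 0 * L ^ θ) atTop (nhds (c * v r))) :
    ∃ κ : ℕ → ℝ, ∀ r : ℕ, r < 6 → Tendsto (fun L : ℝ => F r L 1 * L ^ θ) atTop (nhds (κ r)) := by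
  obtain ⟨A, hA, hb⟩ := base_bb h
  have key : ∀ r : ℕ, r < 6 → ∃ a : ℝ, Tendsto (fun L : ℝ => F r L 1 * L ^ θ) atTop (nhds a) := by
    intro r hr
    rw [← cauchy_map_iff_exists_tendsto, Metric.cauchy_iff]
    refine ⟨inferInstance, fun ε hε => ?_⟩
    obtain ⟨i, hi⟩ : ∃ i : ℕ, A * (19 / 20 : ℝ) ^ i < ε / 4 := by
      obtain ⟨i, hi⟩ := exists_pow_lt_of_lt_one (show 0 < ε / 4 / A by positivity)
        (show (19 / 20 : ℝ) < 1 by norm_num)
      refine ⟨i, ?_⟩
      rw [lt_div_iff₀ hA] at hi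
      linarith [mul_comm A ((19 / 20 : ℝ) ^ i)]
    obtain ⟨a, ha⟩ := DD_conv hc i r 1 hr
    have h1 : ∀ᶠ L : ℝ in atTop, |DD i r L 1 * L ^ θ - a| < ε / 4 := by
      have := (Metric.tendsto_nhds.1 ha) (ε / 4) (by positivity)
      filter_upwards [this] with L hL
      rwa [Real.dist_eq] at hL
    have h2 : ∀ᶠ L : ℝ in atTop, |F r L 1 * L ^ θ - a| < ε / 2 := by
      filter_upwards [h1, eventually_gt_atTop 0] with L hL1 hL0
      have e1 := F_le_DD i r L 1 zero_le_one
      have e2 := DD_le hA hb i r L 1 hr hL0 one_pos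
      have e3 := Real.rpow_pos_of_pos hL0 θ
      have e4 := bb_one (θ := θ) (A := A * (19 / 20) ^ i) (by positivity) r hL0
      have e5 : F r L 1 * L ^ θ ≤ DD i r L 1 * L ^ θ := mul_le_mul_of_nonneg_right e1 e3.le
      have e6 : DD i r L 1 * L ^ θ ≤ F r L 1 * L ^ θ + bb θ (A * (19 / 20) ^ i) r L 1 * L ^ θ := by
        rw [← add_mul]
        exact mul_le_mul_of_nonneg_right e2 e3.le
      rw [abs_lt] at hL1 ⊢
      constructor <;> linarith [hL1.1, hL1.2]
    refine ⟨{y | |y - a| < ε / 2}, ?_, fun x hx y hy => ?_⟩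
    · rw [mem_map]
      exact h2
    · rw [Real.dist_eq]
      have e1 : x - y = (x - a) - (y - a) := by ring
      rw [e1]
      refine (abs_sub _ _).trans_lt ?_
      have e2 : |x - a| < ε / 2 := hx
      have e3 : |y - a| < ε / 2 := hy
      linarith
  choose κ hκ using key
  refine ⟨fun r => if hr : r < 6 then κ r hr else 0, fun r hr => ?_⟩
  simp only [dif_pos hr]
  exact hκ r hr

/-! ### lowering the barrier a little -/

lemma dip_aux {θ : ℝ} {A : ℝ} (hA : 0 < A)
    (hb : ∀ (r : ℕ) (L R : ℝ), r < 6 → 0 < L → 0 < R → R ≤ 1 → F r L 0 ≤ F r L R + bb θ A r L R)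
    (i : ℕ) (R : ℝ) (hR : 0 < R) : ∃ ε₀ : ℝ, 0 < ε₀ ∧ ε₀ < 1 ∧ ∀ ε : ℝ, 0 < ε → ε ≤ ε₀ →
      ∀ (r : ℕ) (L : ℝ), r < 6 → 0 < L →
        F r L ((1 - ε) * R) ≤ F r L R + bb θ (A * (19 / 20) ^ i) r L R := by
  by_cases hR1 : 1 < R
  · refine ⟨(1 - 1 / R) / 2, ?_, ?_, fun ε hε hε1 r L hr hL => ?_⟩
    · have : 1 / R < 1 := by rwa [div_lt_one hR]
      linarith
    · have : 0 < 1 / R := by positivity
      linarith
    · have e1 : 1 < (1 - ε) * R := by
        have e2 : 1 / R < 1 - ε := by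
          have : 1 / R < 1 := by rwa [div_lt_one hR]
          linarith
        rwa [div_lt_iff₀ hR] at e2
      rw [F_zero e1]
      have := F_nonneg r L R
      have := bb_nonneg (θ := θ) (A := A * (19 / 20) ^ i) (by positivity) r hL hR.le
      linarith
  · have hR1' := not_lt.1 hR1
    induction i generalizing R with
    | zero =>
      refine ⟨1 / 2, by norm_num, by norm_num, fun ε hε hε1 r L hr hL => ?_⟩
      rw [pow_zero, mul_one]
      refine le_trans (F_anti r le_rfl ?_) (hb r L R hr hL hR hR1')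
      exact mul_nonneg (by linarith) hR.le
    | succ i ih =>
      -- the three successors
      have hnext : ∀ R' : ℝ, 0 < R' → ∃ ε₀ : ℝ, 0 < ε₀ ∧ ε₀ < 1 ∧ ∀ ε : ℝ, 0 < ε → ε ≤ ε₀ →
          ∀ (r : ℕ) (L : ℝ), r < 6 → 0 < L →
            F r L ((1 - ε) * R') ≤ F r L R' + bb θ (A * (19 / 20) ^ i) r L R' := by
        intro R' hR'
        by_cases h1 : 1 < R'
        · refine ⟨(1 - 1 / R') / 2, ?_, ?_, fun ε hε hε1 r L hr hL => ?_⟩
          · have : 1 / R' < 1 := by rwa [div_lt_one hR']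
            linarith
          · have : 0 < 1 / R' := by positivity
            linarith
          · have e1 : 1 < (1 - ε) * R' := by
              have e2 : 1 / R' < 1 - ε := by
                have : 1 / R' < 1 := by rwa [div_lt_one hR']
                linarith
              rwa [div_lt_iff₀ hR'] at e2
            rw [F_zero e1]
            have := F_nonneg r L R'
            have := bb_nonneg (θ := θ) (A := A * (19 / 20) ^ i) (by positivity) r hL hR'.le
            linarith
        · exact ih R' hR' h1 (not_lt.1 h1)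
      obtain ⟨a, ha0, ha1, ha⟩ := hnext (2 * R) (by linarith)
      obtain ⟨b, hb0, hb1, hb'⟩ := hnext (3 * R) (by linarith)
      obtain ⟨c, hc0, hc1, hc⟩ := hnext (R / 5) (by linarith)
      refine ⟨min a (min b c), lt_min ha0 (lt_min hb0 hc0), lt_of_le_of_lt (min_le_left _ _) ha1,
        fun ε hε hε1 r L hr hL => ?_⟩
      have ea : ε ≤ a := hε1.trans (min_le_left _ _)
      have eb : ε ≤ b := hε1.trans ((min_le_right _ _).trans (min_le_left _ _))
      have ec : ε ≤ c := hε1.trans ((min_le_right _ _).trans (min_le_right _ _))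
      have e0 := bb_nonneg (θ := θ) (A := A * (19 / 20) ^ (i + 1)) (by positivity) r hL hR.le
      have hle : (1 - ε) * R ≤ 1 := by nlinarith
      by_cases hL1 : L ≤ 1
      · rw [F_one hL1 hR1', F_one hL1 hle]
        linarith
      · rw [F_step (not_le.1 hL1) hle, F_step (not_le.1 hL1) hR1']
        have e1 : Op F r L ((1 - ε) * R) = Op (fun s L R => F s L ((1 - ε) * R)) r L R := by
          unfold Op
          have f2 : 2 * ((1 - ε) * R) = (1 - ε) * (2 * R) := by ring
          have f3 : 3 * ((1 - ε) * R) = (1 - ε) * (3 * R) := by ring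
          have f5 : (1 - ε) * R / 5 = (1 - ε) * (R / 5) := by ring
          rw [f2, f3, f5]
        have e2 : Op (fun s L R => F s L ((1 - ε) * R)) r L R ≤
            Op (fun s L R => F s L R + bb θ (A * (19 / 20) ^ i) s L R) r L R :=
          Op_le (fun s hs => ha ε hε ea s _ hs (by linarith)) (fun s hs => hb' ε hε eb s _ hs (by linarith))
            (fun s hs => hc ε hε ec s _ hs (by linarith))
        rw [Op_add] at e2
        have e3 := Op_bb (θ := θ) (A := A * (19 / 20) ^ i) (by positivity) hr hL hR.le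
        rw [e1, pow_succ, ← mul_assoc]
        linarith

theorem dip {θ : ℝ} {v : ℕ → ℝ} (h : Par θ v) {η : ℝ} (hη : 0 < η) : ∃ ε₀ : ℝ, 0 < ε₀ ∧ ε₀ < 1 ∧
    ∀ ε : ℝ, 0 < ε → ε ≤ ε₀ → ∀ r : ℕ, r < 6 → ∀ L : ℝ, 1 ≤ L →
      F r L (1 - ε) ≤ F r L 1 + η * L ^ (-θ) := by
  obtain ⟨A, hA, hb⟩ := base_bb h
  obtain ⟨i, hi⟩ : ∃ i : ℕ, A * (19 / 20 : ℝ) ^ i < η := by
    obtain ⟨i, hi⟩ := exists_pow_lt_of_lt_one (show 0 < η / A by positivity)
      (show (19 / 20 : ℝ) < 1 by norm_num)
    refine ⟨i, ?_⟩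
    rw [lt_div_iff₀ hA] at hi
    linarith [mul_comm A ((19 / 20 : ℝ) ^ i)]
  obtain ⟨ε₀, h0, h1, h2⟩ := dip_aux hA hb i 1 one_pos
  refine ⟨ε₀, h0, h1, fun ε hε hε1 r hr L hL => ?_⟩
  have hL0 : 0 < L := by linarith
  have e1 := h2 ε hε hε1 r L hr hL0
  rw [mul_one] at e1
  refine e1.trans (add_le_add_right ?_ _)
  have e2 := bb_one (θ := θ) (A := A * (19 / 20) ^ i) (by positivity) r hL0
  have e3 := Real.rpow_pos_of_pos hL0 θ
  rw [Real.rpow_neg hL0.le, ← div_eq_mul_inv, le_div_iff₀ e3]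
  linarith

end Pool.H75.EV
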